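import Mathlib

/-!
# MP_c602ad_al, squad NGM, part C: groups with max and limits of stabilisers

`G` is a group all of whose subgroups are finitely generated, acting faithfully on a set `X`.
-/

set_option autoImplicit false

open scoped Classical Pointwise

universe u v

namespace Pool.Agent.NGM

/-- almost polycyclic, in the form of the frozen statements -/
def AP (G : Type u) [Group G] : Prop :=
  ∃ H : Subgroup G, H.index ≠ 0 ∧ IsSolvable H ∧ ∀ K : Subgroup H, K.FG

/-- the inner `K`-boundary of a finite set `F` -/
noncomputable def bd {G : Type u} [Group G] {X : Type v} [MulAction G X] (K : Finset G)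
    (F : Finset X) : Finset X :=
  F.filter fun x => ∃ k ∈ K, k • x ∉ F

/-- hypothesis `W'` on the action: near every almost invariant finite set there is a finite set
which is polynomially almost invariant -/
def WP (G : Type u) [Group G] (X : Type v) [MulAction G X] : Prop :=
  ∀ K : Finset G, ∃ D : ℕ, ∀ e : ℝ, 0 < e → ∃ d : ℝ, 0 < d ∧ ∃ R : ℕ,
    ∀ F : Finset X, F.Nonempty → ((bd K F).card : ℝ) ≤ d * (F.card : ℝ) →
      ∃ A : Finset X, A.Nonempty ∧ A ⊆ (insert 1 K) ^ R • F ∧
        ((bd K A).card : ℝ) ^ D ≤ e * (A.card : ℝ) ^ (D - 1)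

/-- `L` is a limit of point stabilisers of the action on `X` -/
def LimSt (G : Type u) [Group G] (X : Type v) [MulAction G X] (L : Subgroup G) : Prop :=
  ∀ P : Finset G, ∃ x : X, ∀ g ∈ P, (g ∈ L ↔ g • x = x)

/-- Row CTR.  `Z` = the set of limits of stabilisers, a closed, conjugation invariant subset of
`{0,1}^G`, compact; countable because all subgroups are f.g.  Every nonempty closed invariant subset
of `Z` contains a minimal one, which is countable and compact, so it has an isolated point and is a
finite orbit.  For `L ∈ Z` with finitely many conjugates let `N_L` be the core; it is f.g. and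
normal, so `O_L = {K ∈ Z | N_L ≤ K}` is open, and it contains every `K` which has `L` in the closure
of its conjugates.  Compactness: finitely many `O_L` cover `Z`, so the intersection of the cores is
contained in every stabiliser.  `s` = the conjugates of these finitely many `L`. -/
def CtrStmt : Prop := ∀ (G : Type u) [Group G] (X : Type v) [MulAction G X] [FaithfulSMul G X],
  (∀ H : Subgroup G, H.FG) → ∃ s : Set (Subgroup G), s.Finite ∧
    (∀ L ∈ s, (Subgroup.normalizer (L : Set G)).index ≠ 0 ∧ LimSt G X L) ∧ sInf s = ⊥

/-- Row TRF.  Lift a finite set `F` of `Q` to `N`, take `x` such that `g ∈ L ↔ g • x = x` for the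
finitely many `g = a⁻¹ b`, `a, b` in the lifts of the `R + 1` neighbourhood of `F`; then
`a L ↦ a • x` is an isomorphism of `K`-graphs there. -/
def TrfStmt : Prop := ∀ (G : Type u) [Group G] (X : Type v) [MulAction G X] (L : Subgroup G),
  LimSt G X L → WP G X → ∀ (N : Subgroup G) (Q : Type u) [Group Q] (φ : N →* Q),
    Function.Surjective φ → (∀ n : N, φ n = 1 ↔ (n : G) ∈ L) → WP Q Q

/-- Row VPG.  Intersection of the preimages of the finite index solvable subgroups. -/
def VpgStmt : Prop := ∀ (G : Type u) [Group G] (s : Set (Subgroup G)),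
  (∀ H : Subgroup G, H.FG) → s.Finite → sInf s = ⊥ →
  (∀ L ∈ s, ∃ (N : Subgroup G) (Q : Type u) (_ : Group Q) (φ : N →* Q), N.index ≠ 0 ∧
    Function.Surjective φ ∧ (∀ n : N, φ n = 1 ↔ (n : G) ∈ L) ∧ AP Q) → AP G

end Pool.Agent.NGM
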