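import Mathlib

/-!
# MP_c602ad_al, squad NGM: common definitions

Gromov's theorem for groups with the maximal condition, in the infinitely many radii form.
`K` is a finite symmetric generating set containing `1`, `gr K n = |K^n|`.
-/

set_option autoImplicit false

namespace Pool.Agent.NGM

open scoped Pointwise Classical

/-- a finite symmetric generating set containing `1` -/
structure GenSet {Q : Type*} [Group Q] (K : Finset Q) : Prop where
  one : (1 : Q) ∈ K
  inv : ∀ s ∈ K, s⁻¹ ∈ K
  top : Subgroup.closure (K : Set Q) = ⊤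

/-- growth function: the number of elements of `K ^ n` -/
noncomputable def gr {Q : Type*} [Group Q] (K : Finset Q) (n : ℕ) : ℕ := (K ^ n).card

/-- `|K^n| ≤ C n^D` for infinitely many `n` -/
def PolyIo {Q : Type*} [Group Q] (K : Finset Q) (D : ℕ) : Prop :=
  ∃ C : ℕ, ∃ᶠ n in Filter.atTop, gr K n ≤ C * n ^ D

/-- Output of block K (harmonic functions), input of block L: an infinite group of polynomial growth
has an unbounded cocycle in a finite dimensional orthogonal representation. -/
def HrmStmt.{u} : Prop := ∀ (Q : Type u) [Group Q] (K : Finset Q) (D : ℕ), GenSet K → PolyIo K D →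
  Infinite Q → ∃ (n : ℕ) (π : Q →* (EuclideanSpace ℝ (Fin n) ≃ₗᵢ[ℝ] EuclideanSpace ℝ (Fin n)))
    (b : Q → EuclideanSpace ℝ (Fin n)),
    (∀ g h, b (g * h) = b g + π g (b h)) ∧ ∀ C : ℝ, ∃ g, C < ‖b g‖

end Pool.Agent.NGM
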