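import Pool.Agent.NGM.StmtsE

/-!
# MP_c602ad_al, squad NGM: bounded activity

Groups acting on the infinite words over the alphabets `α 0, α 1, ..` (at most `d` letters each)
such that for every generator and every level there are at most `C` words of this level below
which the generator changes something (for example all bounded automorphisms of a regular rooted
tree; no finite state condition, no transitivity).
-/

set_option autoImplicit false

open scoped Classical Pointwise

universe u v

namespace Pool.Agent.NGM

/-- Row BAU.
PROOF.  Block of level `m` of `y`: the words which agree with `y` from the index `m` on.  If `y` is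
in the block `B` and `s y` is not, then the first `m` letters of `y` are in `actv s m`: at most
`C` such `y`.  If `s y` and `y` are not cofinal, the same holds for all `m`, so there are at most
`C` such `y`.  Let `A` be finite with at least two elements.  (a) If some block has more than
`|A|/2` elements of `A`, take one of minimal level `m ≥ 1`; one of its (at most `d`) subblocks `B` of
level `m - 1` has at least `|A|/(2d)` and at most `|A|/2` elements of `A`.  Colour the points of `A`
by `x ∈ B`.  (b) Otherwise colour by the cofinality classes (each class has at most `|A|/2` points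
of `A`, as finitely many cofinal words are in one block).  In both cases at most `c = 2 C |S|`
points `x ∈ A` have some `s x ∈ A` of another colour, so for one colour class `A_1`
`|bd A_1| / |A_1| ≤ (|bd A| + c) / |A|`, and `|A_1| ≤ θ |A|`, `θ = 1 - 1/(2d)`.  Iterate until
`|A| ≤ L`: the ratio increases at most by `2 d c / L` (geometric series).  Start with `F`,
`|bd F| ≤ (c/L) |F|`: `|A| ≤ L`, `|bd A| ≤ (3 d c / L) |A|`, so
`|bd A|² ≤ 9 d² c² / L² * |A| * L ≤ e |A|` for `L ≥ 9 d² c² / e`. -/
def BauStmt : Prop := ∀ (G : Type u) [Group G] (α : ℕ → Type v)
  [∀ i, Fintype (α i)] [MulAction G (∀ i, α i)] (S : Finset G) (C d : ℕ),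
  (∀ s ∈ S, s⁻¹ ∈ S) → (∀ i, Fintype.card (α i) ≤ d) →
  (∀ s ∈ S, ∀ m, (actv α s m).ncard ≤ C) → W1 S (∀ i, α i) 2

end Pool.Agent.NGM
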