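import Pool.Agent.NGM.Defs
import Pool.Agent.NGM.StmtsC

/-!
# MP_c602ad_al, squad NGM, block L (helper47)

Compact linear groups and the induction of Gromov's theorem for groups with the maximal
condition on subgroups.  Only statements; complete proofs in the docstrings.
-/

set_option autoImplicit false

open scoped Classical Pointwise

universe u

namespace Pool.Agent.NGM

/-- Row CLG.  A group of isometries of a Euclidean space whose growth is polynomial along a
sequence of radii is virtually commutative.  Proof: note 3424 (7) (distinct products of iterated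
commutators, Frobenius lemma, total boundedness). -/
def ClgStmt : Prop := ∀ (Q : Type u) [Group Q] (K : Finset Q) (D : ℕ), GenSet K → PolyIo K D →
  ∀ (n : ℕ) (π : Q →* (EuclideanSpace ℝ (Fin n) ≃ₗᵢ[ℝ] EuclideanSpace ℝ (Fin n))),
    ∃ H : Subgroup Q, H.FiniteIndex ∧ ∀ g ∈ H, ∀ h ∈ H, π g * π h = π h * π g

/-- Row VIZ.  Take `H` from CLG; `A = π(H)` is commutative and f.g. (finite index in a f.g.
group).  If `A` is infinite, it maps onto `ℤ` (structure of f.g. commutative groups), compose with
`π : H → A`.  If `A` is finite, `H₁ = ker π ⊓ H` has finite index, `b` restricted to `H₁` is a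
homomorphism to the additive group `E`; it is not zero (otherwise `b (g h) = b g` for `h ∈ H₁`, so
`b` takes finitely many values and is bounded); its image is a f.g. torsion free commutative group
which is not trivial, so it maps onto `ℤ`. -/
def VizStmt : Prop := ∀ (Q : Type u) [Group Q] (K : Finset Q) (D : ℕ), GenSet K → PolyIo K D →
  ∀ (n : ℕ) (π : Q →* (EuclideanSpace ℝ (Fin n) ≃ₗᵢ[ℝ] EuclideanSpace ℝ (Fin n)))
    (b : Q → EuclideanSpace ℝ (Fin n)), (∀ g h, b (g * h) = b g + π g (b h)) →
    (∀ C : ℝ, ∃ g, C < ‖b g‖) →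
    ∃ (H : Subgroup Q) (f : H →* Multiplicative ℤ), H.FiniteIndex ∧ Function.Surjective f

/-- Row KER.  Choose `t ∈ H` with `f t = 1` (generator), `c` with `t ∈ K ^ c` and `K' ⊆ K ^ c`
(as elements of `Q`; `K` is symmetric, contains `1` and generates).  For `w ∈ K' ^ n`, `i ≤ n`
the elements `t ^ i * w` of `K ^ (2 c n)` are different: `f` gives `i`, then `w`.  So
`(n + 1) gr K' n ≤ gr K (2 c n)`.  For a good radius `m ≥ 2 c` of `K` take `n = m / (2 c)`:
`(n + 1) gr K' n ≤ gr K m ≤ C m ^ (D + 1) ≤ C (4 c n) ^ (D + 1)`, so
`gr K' n ≤ C (4 c) ^ (D + 1) n ^ D`, and `n → ∞` with `m`. -/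
def KerStmt : Prop := ∀ (Q : Type u) [Group Q] (K : Finset Q) (D : ℕ), GenSet K →
  PolyIo K (D + 1) → ∀ (H : Subgroup Q) (f : H →* Multiplicative ℤ),
    Function.Surjective f → ∀ K' : Finset f.ker, GenSet K' → PolyIo K' D

/-- Row EXT.  All subgroups of `Q` are f.g., `H` has finite index and maps onto `ℤ` with almost
polycyclic kernel `N`.  Then `Q` is almost polycyclic.  Proof: `N` has a solvable subgroup of
finite index; `N` is f.g., so it has only finitely many subgroups of this index and their
intersection `N₀` is characteristic in `N`, solvable, of finite index in `N`, normal in `H`.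
Let `t ∈ H` with `f t = 1`.  `t` acts on the finite group `N / N₀`, so `t ^ k` (k > 0) centralises
it and `L = ⟨N₀, t ^ k⟩` is `N₀ ⋊ ⟨t ^ k⟩`: solvable (`L ⊓ N = N₀` and `L / N₀` is cyclic), of
index `k [N : N₀]` in `H`. -/
def ExtStmt : Prop := ∀ (Q : Type u) [Group Q], (∀ H : Subgroup Q, H.FG) →
  ∀ (H : Subgroup Q) (f : H →* Multiplicative ℤ), H.FiniteIndex → Function.Surjective f →
    AP f.ker → AP Q

/-- Row GRO.  Gromov's theorem for groups with the maximal condition on subgroups, growth bounded
along a sequence.  Induction on `D`: if `Q` is finite it is almost polycyclic; if `D = 0` it is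
finite (`gr K` is monotone, bounded along a sequence, so bounded, and `⋃ K ^ n = Q`).  If `Q` is
infinite, HRM and VIZ give `f : H → ℤ`, the kernel is f.g. with growth exponent `D - 1` (KER), so
it is almost polycyclic by induction, and EXT. -/
def GroStmt : Prop := ∀ (Q : Type u) [Group Q], (∀ H : Subgroup Q, H.FG) →
  ∀ (K : Finset Q) (D : ℕ), GenSet K → PolyIo K D → AP Q

end Pool.Agent.NGM
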