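import Pool.Agent.NGM.Defs
import Pool.Agent.NGM.StmtsC
import Pool.Agent.NGM.StmtsL
import Pool.Agent.Helper12_NGR.Stmts

/-!
# MP_c602ad_al, squad NGM, block E: isoperimetry of limits, corollaries, final theorem

`S` is one finite generating set of `G` (`GenSet`).  Only definitions and statements, complete
proofs in the docstrings.
-/

set_option autoImplicit false

open scoped Classical Pointwise
open Filter

universe u v

namespace Pool.Agent.NGM

/-- virtually abelian, with a finitely generated abelian subgroup -/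
def VAb (G : Type u) [Group G] : Prop :=
  ∃ H : Subgroup G, H.index ≠ 0 ∧ H.FG ∧ ∀ a ∈ H, ∀ b ∈ H, a * b = b * a

/-- the isoperimetric condition with exponent `D` and constant `e` for the finite set `A` -/
def Ip {G : Type u} [Group G] {X : Type v} [MulAction G X] (S : Finset G) (D : ℕ) (e : ℝ)
    (A : Finset X) : Prop :=
  A.Nonempty ∧ ((bd S A).card : ℝ) ^ D ≤ e * (A.card : ℝ) ^ (D - 1)

/-- (W1) near every almost invariant finite set there is a set with `Ip` -/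
def W1 {G : Type u} [Group G] (S : Finset G) (X : Type v) [MulAction G X] (D : ℕ) : Prop :=
  ∀ e : ℝ, 0 < e → ∃ d : ℝ, 0 < d ∧ ∃ W : Finset G, ∀ F : Finset X, F.Nonempty →
    ((bd S F).card : ℝ) ≤ d * F.card → ∃ A : Finset X, A ⊆ W • F ∧ Ip S D e A

/-- (W2) near every point there is a set with `Ip` -/
def W2 {G : Type u} [Group G] (S : Finset G) (X : Type v) [MulAction G X] (D : ℕ) : Prop :=
  ∀ e : ℝ, 0 < e → ∃ W : Finset G, ∀ x : X, ∃ A : Finset X, A ⊆ W • {x} ∧ Ip S D e A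

/-- there are sets with `Ip` for every `e > 0` -/
def Iso {G : Type u} [Group G] (S : Finset G) (X : Type v) [MulAction G X] (D : ℕ) : Prop :=
  ∀ e : ℝ, 0 < e → ∃ A : Finset X, Ip S D e A

/-- The normaliser of `L` modulo `L`. -/
abbrev NQ {G : Type u} [Group G] (L : Subgroup G) : Type u :=
  Subgroup.normalizer (L : Set G) ⧸ L.subgroupOf (Subgroup.normalizer (L : Set G))

/-- Row TRG (part 1).  Given `e` take `d`, `W` for `X`; use them for `G ⧸ L`.  Let `F ⊆ G ⧸ L`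
be given, `R` a finite set of representatives of the points of `F`.  Choose `x` whose
stabiliser agrees with `L` on the finite set of all `a⁻¹ b` and `a⁻¹ s b`, `a, b ∈ R ∪ W R`,
`s ∈ S`.  `a L ↦ a • x` is a bijection from `(R ∪ W R) L` onto `(R ∪ W R) x` which respects the
`S`-edges in both directions.  So the image of `F` has a boundary of the same size; take `A` for
it and pull it back. -/
def TrgStmt : Prop := ∀ (G : Type u) [Group G] (X : Type v) [MulAction G X] (L : Subgroup G)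
  (S : Finset G) (D : ℕ), LimSt G X L → W1 S X D → W1 S (G ⧸ L) D

/-- Row TRH.  The same with `R = {1}`: `x` whose stabiliser agrees with `L` on all `a⁻¹ b`,
`a⁻¹ s b`, `a, b ∈ W`. -/
def TrhStmt : Prop := ∀ (G : Type u) [Group G] (X : Type v) [MulAction G X] (L : Subgroup G)
  (S : Finset G) (D : ℕ), LimSt G X L → W2 S X D → Iso S (G ⧸ L) D

/-- Row FOL.  Apply `NGR.Foelner` to the set `S⁻¹` and `n ≥ |S| / e`, `n ≥ 1`: `F₀` with
`n |F₀ S⁻¹ ∪ F₀| ≤ (n+1) |F₀|`, so `n |F₀ S⁻¹ \ F₀| ≤ |F₀|`.  `F = F₀⁻¹`: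
`n |{g ∈ F | s g ∉ F}| ≤ |F|` for all `s ∈ S`.  `φ x = |{g ∈ F | gL = x}|` on `G ⧸ L`,
`A_t = {x | t ≤ φ x}` for `1 ≤ t ≤ |F|` (finite).  `∑_t |A_t| = ∑_x φ x = |F|`.  For `s ∈ S`:
`∑_t |{x ∈ A_t | s x ∉ A_t}| = ∑_x (φ x - φ (s x))^+ ≤ ∑_x |{g ∈ F | gL = x, s g ∉ F}| =
|{g ∈ F | s g ∉ F}|`.  So `∑_t n |bd S A_t| ≤ |S| |F| = |S| ∑_t |A_t|`: some nonempty `A_t` has
`|bd S A_t| ≤ (|S| / n) |A_t|`. -/
def FolStmt : Prop := ∀ (G : Type u) [Group G] (L : Subgroup G), NGR.Foelner G →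
  ∀ (S : Finset G) (e : ℝ), 0 < e → ∃ A : Finset (G ⧸ L), A.Nonempty ∧
    ((bd S A).card : ℝ) ≤ e * A.card

/-- Row CSG.  `N` the normaliser, `t ∈ T` representatives of the left cosets `tN`, `k` of them;
`K` lifted to a finite `K'` in `N`; `c ≥ 1` with `t g t⁻¹ ∈ S^c` for all `t ∈ T`, `g ∈ K'`.
(i) `A ⊆ G ⧸ L` finite, `h ∈ S^c`: `|{x ∈ A | h x ∉ A}| ≤ c |bd S A|` (`h = s_1 .. s_c`; if
`h x ∉ A` then for some `i` the point `y = s_(i+1) .. s_c x` is in `A` and `s_i y` is not; for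
fixed `i` the map `x ↦ y` is injective; induction on `c`).
(ii) `A` from `Iso` with `e' = e / ((c |K|)^D k^(D-1))`.  `A` is the disjoint union of the
`A ∩ (tN)/L`; choose `t` with `|A ∩ (tN)/L| ≥ |A|/k`, and `A_1 = {y ∈ N ⧸ L | t y ∈ A}` (with the
injective map `N ⧸ L → G ⧸ L`, `N`-equivariant), `|A_1| ≥ |A|/k`.  For `q ∈ K` with lift `g`:
`|{y ∈ A_1 | q y ∉ A_1}| ≤ |{x ∈ A | (t g t⁻¹) x ∉ A}| ≤ c |bd S A|`.  So
`|bd K A_1|^D ≤ (c |K|)^D |bd S A|^D ≤ (c |K|)^D e' |A|^(D-1) ≤ e |A_1|^(D-1)`. -/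
def CsgStmt : Prop := ∀ (G : Type u) [Group G] (L : Subgroup G) (S : Finset G) (D : ℕ),
  GenSet S → (Subgroup.normalizer (L : Set G)).index ≠ 0 → Iso S (G ⧸ L) D →
  ∀ K : Finset (NQ L), Iso K (NQ L) D

/-- Row CSC (Coulhon - Saloff-Coste).  If `Q` is finite the claim is clear (`D = 0` contradicts
`Iso` for `e < 1`, `1 ≤ |Q| n^D` otherwise).  `Q` infinite: `bd K A` is not empty for finite
nonempty `A` (`K` generates).  For `q ∈ K^n`: `|{y ∈ A | q y ∉ A}| ≤ n |bd K A|` (as in CSG (i)).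
Sum over `q ∈ K^n`: `|A| (|K^n| - |A|) ≤ ∑_(y ∈ A) |{q ∈ K^n | q y ∉ A}| ≤ n |bd K A| |K^n|`.  With
`n = |A| / (2 |bd K A|)` (rounded down): `|K^n| ≤ 2 |A|`.  `Ip`: `|A| ≤ e (|A| / |bd K A|)^D ≤
e (2 (n+1))^D ≤ e 4^D n^D` if `n ≥ 1`, so `|K^n| ≤ 2 · 4^D n^D` for `e ≤ 1`.  Finally
`|A| / |bd K A| ≥ (|A|/e)^(1/D) ≥ e^(-1/D)` tends to infinity for `e → 0`, so `n` does. -/
def CscStmt : Prop := ∀ (Q : Type u) [Group Q] (K : Finset Q) (D : ℕ), GenSet K →
  Iso K Q D → PolyIo K D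

/-- Row VAQ.  If `Q` is finite take `H = ⊥`.  `Q` infinite: by CSC, HRM and VIZ there are `H` of
finite index and `f : H → ℤ` surjective, with f.g. kernel `N`.  If `N` is infinite then
`|K^n| ≥ c n^2` for all `n ≥ 1` (`t ∈ H` with `f t = 1`, `K'` a generating set of `N`, both in
`K^m`: the `t^i w`, `0 ≤ i ≤ n`, `w ∈ K'^n`, are different, lie in `K^(2mn)`, and
`|K'^n| ≥ n+1`).  Then for every finite nonempty `A ⊆ Q`: let `r ≥ 1` be minimal with
`|K^r| ≥ 2 |A|`, so `c (r-1)^2 < 2 |A|`; as in CSC `|A| / 2 ≤ r |bd K A|`, so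
`|bd K A|² ≥ |A|² / (4 r²) ≥ c' |A|` with `c' > 0` depending only on `c`; this contradicts `Iso`
with `D = 2` for `e < c'`.  So `N` is finite; `H` acts on `N` by conjugation, the centraliser `Z`
of `N` in `H` has finite index, `Z ∩ N` is central in `Z` and `Z / (Z ∩ N)` is cyclic (a subgroup
of `ℤ`), so `Z` is abelian. -/
def VaqStmt : Prop := ∀ (Q : Type u) [Group Q] (K : Finset Q), (∀ H : Subgroup Q, H.FG) →
  GenSet K → Iso K Q 2 → VAb Q

/-- Row VAG.  As VPG for abelian groups: `P` = the intersection of the preimages in `N(L)` of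
finite index abelian subgroups of `NQ L`, `L ∈ s`; commutators of `P` are in all `L`. -/
def VagStmt : Prop := ∀ (G : Type u) [Group G] (s : Set (Subgroup G)), (∀ H : Subgroup G, H.FG) →
  s.Finite → sInf s = ⊥ → (∀ L ∈ s, (Subgroup.normalizer (L : Set G)).index ≠ 0 ∧ VAb (NQ L)) →
  VAb G

/-- (PH) polynomially hyperfinite: for infinitely many `r`, every finite set `F` of points
contains a set `F'` with `r |F \ F'| ≤ |F|`, which splits into parts with at most `C r^D`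
elements such that no element of `S` moves a point of `F'` to a point of another part. -/
def FR {G : Type u} [Group G] (S : Finset G) (X : Type v) [MulAction G X] (C D : ℕ) : Prop :=
  ∃ᶠ r : ℕ in atTop, ∀ F : Finset X, ∃ F' : Finset X, F' ⊆ F ∧ r * (F \ F').card ≤ F.card ∧
    ∃ c : X → ℕ, (∀ x ∈ F', ∀ s ∈ S, s • x ∈ F' → c (s • x) = c x) ∧
      ∀ j : ℕ, (F'.filter fun x => c x = j).card ≤ C * r ^ D

/-- Row FRW.  Given `e`, let `r` be one of the numbers of `FR`, large; `d = 1/r`, `W = {1}`.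
`|bd S F| ≤ |F|/r`; `F'`, `c` as in `FR`; `A_j = {x ∈ F' | c x = j}`.  `x ∈ bd S A_j` with
`s x ∉ A_j` implies `s x ∉ F'`, so `x ∈ bd S F` or `s x ∈ F \ F'`: the `bd S A_j` are disjoint,
their union has at most `|bd S F| + |S| |F \ F'| ≤ (1 + |S|) |F| / r` elements, and
`|F| ≤ 2 |F'| = 2 ∑_j |A_j|`.  So some nonempty `A_j` has `|bd S A_j| ≤ (a/r) |A_j|`,
`a = 2 (1 + |S|)`, and `|bd S A_j|^(D+1) ≤ (a/r)^(D+1) |A_j|^D |A_j| ≤ (a^(D+1) C / r) |A_j|^D`. -/
def FrwStmt : Prop := ∀ (G : Type u) [Group G] (X : Type v) [MulAction G X] (S : Finset G)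
  (C D : ℕ), FR S X C D → W1 S X (D + 1)

/-- Growth of all orbits bounded by `C n^D`, for infinitely many `n`. -/
def OG {G : Type u} [Group G] (S : Finset G) (X : Type v) [MulAction G X] (C D : ℕ) : Prop :=
  ∃ᶠ n : ℕ in atTop, ∀ x : X, (S ^ n • ({x} : Finset X)).card ≤ C * n ^ D

/-- Row OGW.  (`1 ∈ S`.)  Part 1: let `T` be one of the good numbers, large, `r = √T` (rounded
down), so `r² ≤ T ≤ 4 r²`.  `x ∈ X`, `a_n = |S^n x|`, non-decreasing, `a_0 = 1`.  If
`r (a_n - a_(n-1)) > a_n` for all `1 ≤ n ≤ r²` then `a_n ≥ (1 + 1/r) a_(n-1)`, so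
`a_(r²) ≥ (1 + 1/r)^(r²) ≥ 2^r > C (4 r²)^D ≥ C T^D` for large `r`, a contradiction.  So
`r (a_n - a_(n-1)) ≤ a_n` for some `1 ≤ n ≤ r²`; `A = S^n x ⊆ S^T x`: `bd S A ⊆ S^n x \ S^(n-1) x`,
`|A| ≤ C 4^D r^(2D)`, `|bd S A|^(2D+1) ≤ |A|^(2D) |A| / r^(2D+1) ≤ |A|^(2D) C 4^D / r`.
Part 2 (linear growth): `T` good and large; `∑_(T/2 < n ≤ T) (a_n - a_(n-1)) ≤ C T` with at least
`T/2` terms, so `a_n - a_(n-1) ≤ 2 C` for some `n` in `(T/2, T]`, `A = S^n x`.  If
`a_n = a_(n-1)` the boundary is empty.  Otherwise `a_i` is strictly increasing for `i ≤ n` (if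
`S^i x = S^(i-1) x` then `S^j x` is constant for `j ≥ i-1`), so `|A| ≥ n > T/2` and
`|bd S A|² ≤ 4 C² ≤ e |A|` for large `T`. -/
def OgwStmt : Prop := ∀ (G : Type u) [Group G] (X : Type v) [MulAction G X] (S : Finset G)
  (C : ℕ), 1 ∈ S → (∀ D : ℕ, OG S X C D → W2 S X (2 * D + 1)) ∧ (OG S X C 1 → W2 S X 2)

/-- The action on the infinite words over the alphabets `α 0, α 1, ..` preserves initial
segments. -/
def IsTree (G : Type u) [Group G] (α : ℕ → Type v) [MulAction G (∀ i, α i)] : Prop :=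
  ∀ (g : G) (m : ℕ) (x y : ∀ i, α i), (∀ i < m, x i = y i) → ∀ i < m, (g • x) i = (g • y) i

/-- Transitive on every level. -/
def LevTr (G : Type u) [Group G] (α : ℕ → Type v) [MulAction G (∀ i, α i)] : Prop :=
  ∀ (m : ℕ) (x y : ∀ i, α i), ∃ g : G, ∀ i < m, (g • x) i = y i

/-- The words `v` of length `m` at which the section of `g` is not trivial: `g` changes a letter
of index at least `m` of some infinite word which begins with `v`. -/
def actv {G : Type u} [Group G] (α : ℕ → Type v) [MulAction G (∀ i, α i)] (g : G) (m : ℕ) :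
    Set (∀ i : Fin m, α i) :=
  {v | ∃ x : ∀ i, α i, (∀ i : Fin m, x i = v i) ∧ ∃ i, m ≤ i ∧ (g • x) i ≠ x i}

/-- Row TRE (level transitive groups of tree automorphisms with activity `o(N^(1-1/D))` on a
sequence of levels).
PROOF. `N` = number of words of length `m`, `a = ∑_(s ∈ S) |actv s m|`, `a^D ≤ e N^(D-1)`
(hypothesis with `e / |S|^D`).  `V` = a minimal nonempty set of words of length `m` with
`N |b V| ≤ a |V|`, `b V = {v ∈ V | ∃ s ∈ S, v ∈ actv s m or s v ∉ V}` (the set of all words has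
this property).  `V` is connected by inactive steps: fix `v₀ ∈ V`, `V₀` = the `v ∈ V` reachable
from `v₀` inside `V` by steps `v → s v` with `v ∉ actv s m`; if `v ∉ actv s m` then
`s v ∉ actv s⁻¹ m`, so (`S` symmetric) steps can be reversed.  Then `b V₀ ∪ b (V \ V₀) ⊆ b V`
(disjoint), so if `V \ V₀` were nonempty one of the two sets would violate minimality (add the two
strict inequalities).
Let `x` be an infinite word.  By level transitivity choose for each word `u` of length `m` some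
`g_u` with `g_u u ∈ V`, and for `v', v ∈ V` a product `h` of inactive steps from `v'` to `v`; `W` =
all products `h g_u`.  `x' = g_u x` (`u` the beginning of `x`) has beginning `v' ∈ V` and some
tail `w'`; `A = {v w' | v ∈ V} ⊆ W x`, `|A| = |V| ≤ N`.  If `v w' ∈ bd S A` with
`s (v w') ∉ A` then `v ∈ actv s m` or `s v ∉ V`, so `|bd S A| ≤ |b V| ≤ (a/N) |A|` and
`|bd S A|^D ≤ (a/N)^D |A|^D ≤ (a^D / N^(D-1)) |A|^(D-1) ≤ e |A|^(D-1)` (`D ≥ 1`). -/
def TreStmt : Prop := ∀ (G : Type u) [Group G] (α : ℕ → Type v)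
  [∀ i, Fintype (α i)] [∀ i, Nonempty (α i)] [MulAction G (∀ i, α i)]
  (S : Finset G) (D : ℕ), GenSet S → IsTree G α → LevTr G α → 1 ≤ D →
  (∀ e : ℝ, 0 < e → ∃ m : ℕ, ∀ s ∈ S,
    ((actv α s m).ncard : ℝ) ^ D ≤ e * (Nat.card (∀ i : Fin m, α i) : ℝ) ^ (D - 1)) →
  W2 S (∀ i, α i) D

/-- Row MAI (assembly). -/
def MaiStmt : Prop := ∀ (G : Type u) [Group G] (X : Type v) [MulAction G X]
  [FaithfulSMul G X] (S : Finset G) (D : ℕ), GenSet S →
  (IsNoetherianRing (MonoidAlgebra ℤ G) ∧ W1 S X D ∨ (∀ H : Subgroup G, H.FG) ∧ W2 S X D) →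
  AP G ∧ (D ≤ 2 → VAb G)

end Pool.Agent.NGM
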