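import Pool.Agent.NGM.Defs

/-!
# MP_c602ad_al, squad NGM, block K (helper91): harmonic functions on groups of polynomial growth

An infinite group `Q` with `|K^n| ≤ C n^D` for infinitely many `n` has an unbounded cocycle in a
finite dimensional orthogonal representation (row HRM, `HrmStmt` in `Defs.lean`).  Elementary: only
real valued functions on `Q`.  `P = av K` is the averaging operator `P f(x) = |K|⁻¹ ∑_(s∈K) f(xs)`,
`w_n = wk K n = P^n δ_1`, `p_k = w_(2k)(1)`, `a_k = p_k - p_(k+1)`.  Two steps of the walk are one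
step of the walk we use: harmonic means `P (P f) = f`; `E_n f = (P^(2n) f)(1)`.  `P` commutes with
left translations `f ↦ f(g ·)`, is linear and monotone, and `P^n 1 = 1`.
Every row has a complete proof in its docstring.
-/

set_option autoImplicit false

namespace Pool.Agent.NGM

open scoped Pointwise Classical
open Filter Topology

/-- averaging operator, one step of the simple random walk -/
noncomputable def av {Q : Type*} [Group Q] (K : Finset Q) (f : Q → ℝ) (x : Q) : ℝ :=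
  (K.card : ℝ)⁻¹ * ∑ s ∈ K, f (x * s)

/-- distribution of the simple random walk after `n` steps -/
noncomputable def wk {Q : Type*} [Group Q] (K : Finset Q) (n : ℕ) : Q → ℝ :=
  (av K)^[n] (fun x => if x = 1 then 1 else 0)

/-- `p_k = w_(2k)(1)` -/
noncomputable def pp {Q : Type*} [Group Q] (K : Finset Q) (k : ℕ) : ℝ := wk K (2 * k) 1

/-- `a_k = p_k - p_(k+1)` -/
noncomputable def aa {Q : Type*} [Group Q] (K : Finset Q) (k : ℕ) : ℝ := pp K k - pp K (k + 1)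

/-- entropy of `w_(2n)` -/
noncomputable def en {Q : Type*} [Group Q] (K : Finset Q) (n : ℕ) : ℝ :=
  ∑ x ∈ K ^ (2 * n), Real.negMulLog (wk K (2 * n) x)

/-- Row WK.  Induction on `n`.  Formula for `P^n f (y)`: `P^(n+1) f (y) = P^n (P f) (y)` and
`w_(n+1)(x) = |K|⁻¹ ∑_s w_n(x s)`; substitute `x ↦ x s⁻¹` (`K = K⁻¹`), the sum may be taken over
`K^(n+1) ⊇ K^n s` because `w_n` vanishes outside `K^n` (`K^n ⊆ K^(n+1)` as `1 ∈ K`).
The last one: `w_(m+n) = P^m w_n`, so `w_(m+n)(x) = ∑_(y ∈ K^m) w_m(y) w_n(x y)`.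
Symmetry: let `L f (x) = |K|⁻¹ ∑_s f(s x)`; `L` commutes with `P`, `L δ = P δ`
(`K = K⁻¹`), so `w_n = L^n δ`; and `(P f)(x⁻¹) = L (f ∘ inv)(x)`, so `w_n(x⁻¹) = L^n δ (x) = w_n(x)`.
Then `w_(m+n)(x) = w_(m+n)(x⁻¹) = ∑_y w_m(y) w_n(x⁻¹ y) = ∑_y w_m(y) w_n(y⁻¹ x)`. -/
def WkStmt.{u} : Prop := ∀ (Q : Type u) [Group Q] (K : Finset Q), GenSet K → ∀ n : ℕ,
  (∀ x, 0 ≤ wk K n x) ∧ (∀ x, wk K n x ≠ 0 → x ∈ K ^ n) ∧ (∀ x, wk K n x⁻¹ = wk K n x) ∧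
  (∀ (f : Q → ℝ) (y : Q), (av K)^[n] f y = ∑ x ∈ K ^ n, wk K n x * f (y * x)) ∧
  ∑ x ∈ K ^ n, wk K n x = 1 ∧
  ∀ m x, wk K (m + n) x = ∑ y ∈ K ^ m, wk K m y * wk K n (y⁻¹ * x)

/-! ### Part 1: a harmonic function -/

/-- what we use of `ψ(g) = |b(g)|²` for a cocycle `b`; closed under limits and positive multiples -/
structure Neg {Q : Type*} [Group Q] (ψ : Q → ℝ) : Prop where
  one : ψ 1 = 0
  inv : ∀ g, ψ g⁻¹ = ψ g
  nonneg : ∀ g, 0 ≤ ψ g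
  tri : ∀ g h, √(ψ (g * h)) ≤ √(ψ g) + √(ψ h)
  four : ∀ x s h, |ψ (h⁻¹ * x * s) - ψ (h⁻¹ * x) - ψ (x * s) + ψ x| ≤ 2 * (√(ψ s) * √(ψ h))

/-- Row NEG (pure Hilbert space geometry).  `F` is a finitely supported vector valued function on `Q`.
In `ℓ²(Q × J)` put `(g F)(x, j) = F(g⁻¹ x, j)`, `b(g) = (g F - F)/√2`.  Then `c(g) = ⟨g F, F⟩`,
`ψ(g) = c(1) - c(g) = |g F - F|²/2 = |b(g)|²`, `b(g h) = b(g) + g b(h)`, `|b(g) - b(h)|² = ψ(h⁻¹ g)`,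
`|b(x s) - b(x)|² = ψ(s)`, and
`ψ(h⁻¹ x s) - ψ(h⁻¹ x) - ψ(x s) + ψ(x) = -2 ⟨b(x s) - b(x), b(h)⟩`.
(All sums are finite: one may use `lp (fun _ : Q × J => ℝ) 2`, or finite sums over a large finset and
the Cauchy-Schwarz inequality.) -/
def NegStmt.{u} : Prop := ∀ (Q : Type u) [Group Q] (J : Type u) [Fintype J] (S : Finset Q)
  (F : Q → J → ℝ), (∀ x, x ∉ S → ∀ j, F x j = 0) →
  Neg (fun g => ∑ x ∈ S, ∑ j, F x j * F x j - ∑ x ∈ S, ∑ j, F (g⁻¹ * x) j * F x j)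

/-- Row NGP (from WK, NEG).  First: `J` a point, `F = w_k`, `S = K^k`:
`∑_x w_k(g⁻¹ x) w_k(x) = ∑_x w_k(x) w_k(x⁻¹ g) = w_(2k)(g)`.
Second: `J = K × K`, `S = K^(k+2)`, `F x (s, t) = (w_k(x) - w_k(x s t))/(√2 |K|)`.  Expand
`∑_x (w_k(g⁻¹x) - w_k(g⁻¹xst)) (w_k(x) - w_k(xst))`; the average over `s, t ∈ K` of
`∑_x w_k(g⁻¹x) w_k(xst)` is `∑_x w_k(g⁻¹x) w_(k+2)(x) = w_(2k+2)(g)`, the same for the other mixed
term (`w_(k+2) = P (P w_k)`), and `∑_x w_k(g⁻¹xst) w_k(xst) = w_(2k)(g)`; so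
`c(g) = w_(2k)(g) - w_(2k+2)(g)`. -/
def NgpStmt.{u} : Prop := ∀ (Q : Type u) [Group Q] (K : Finset Q), GenSet K → ∀ k : ℕ,
  Neg (fun g => pp K k - wk K (2 * k) g) ∧
  Neg (fun g => aa K k - (wk K (2 * k) g - wk K (2 * k + 2) g))

/-- Row BND (from WK, NGP).  Let `ψ` be the first function of NGP.  The average of `ψ(s t)` over
`s, t ∈ K` is `p_k - w_(2k+2)(1) = a_k` (`w_(2k+2) = P (P w_(2k))`), all terms are `≥ 0`, so
`ψ(s t) ≤ |K|² a_k`, `t = 1`: `ψ(s) ≤ |K|² a_k`, and `√ψ` is subadditive.  In the same way for the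
second function, the average of `ψ(s t)` is `a_k - (p_(k+1) - p_(k+2)) = a_k - a_(k+1)`. -/
def BndStmt.{u} : Prop := ∀ (Q : Type u) [Group Q] (K : Finset Q), GenSet K → ∀ (k n : ℕ) (g : Q),
  g ∈ K ^ n →
  pp K k - wk K (2 * k) g ≤ (n : ℝ) ^ 2 * (K.card : ℝ) ^ 2 * aa K k ∧
  aa K k - (wk K (2 * k) g - wk K (2 * k + 2) g) ≤
    (n : ℝ) ^ 2 * (K.card : ℝ) ^ 2 * (aa K k - aa K (k + 1))

/-- Row PZE (from WK, BND).  `p_k = ∑_x w_k(x)² > 0` (WK with `m = n = k`, `x = 1`).  `a_k ≤ 0` would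
give `w_(2k)(g) ≥ p_k > 0` for all `g ∈ ⋃ K^n = Q` (closure of `K` is `⊤`), but `w_(2k)` has finite
support.  So `p_k` decreases to a limit `p ≥ 0` and `a_k → 0`.  Take `m` different elements
`g_i ∈ K^n` (for some `n`): `1 ≥ ∑_i w_(2k)(g_i) ≥ m (p_k - n² |K|² a_k)`, so `m p ≤ 1` for all `m`.
Last: `1 = (∑_(x ∈ K^k) w_k(x))² ≤ |K^k| ∑ w_k² = gr K k * p_k`. -/
def PzeStmt.{u} : Prop := ∀ (Q : Type u) [Group Q] (K : Finset Q), GenSet K → Infinite Q →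
  (∀ k, 0 < aa K k) ∧ Tendsto (pp K) atTop (𝓝 0) ∧ ∀ k, 1 ≤ (gr K k : ℝ) * pp K k

/-- Row GOO (from PZE).  Suppose `a_(k+1) < (1-ε) a_k` for all `k ≥ k0` (`ε < 1`).  Then
`a_k ≤ (1-ε)^(k-k0) a_(k0)`, and `p_k = ∑_(j≥k) a_j ≤ (1-ε)^(k-k0) a_(k0)/ε` because `p_j → 0`.  But
`p_k ≥ 1/gr K k ≥ 1/(C k^D)` for infinitely many `k`. -/
def GooStmt.{u} : Prop := ∀ (Q : Type u) [Group Q] (K : Finset Q) (D : ℕ), GenSet K → PolyIo K D →
  Infinite Q → ∀ ε : ℝ, 0 < ε → ∃ᶠ k in atTop, (1 - ε) * aa K k ≤ aa K (k + 1)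

/-- Row PSI (from WK, NGP, BND, PZE, GOO).  Choose `k_j → ∞` with `(1 - 1/(j+1)) a_k ≤ a_(k+1)` for
`k = k_j`, and `ψ_j(g) = (p_k - w_(2k)(g))/a_k`, `Neg ψ_j`.  For `g ∈ K^n`: `0 ≤ ψ_j(g) ≤ n² |K|²`,
and `P P ψ_j(g) - ψ_j(g) = (w_(2k)(g) - w_(2k+2)(g))/a_k` is in `[1 - n² |K|²/(j+1), 1]`
(BND, second part; `Neg.nonneg` of the second function for `≤ 1`).  `ψ` = the limit of `ψ_j` along a
non-principal ultrafilter on `ℕ` (or a cluster point in a product of intervals). -/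
def PsiStmt.{u} : Prop := ∀ (Q : Type u) [Group Q] (K : Finset Q) (D : ℕ), GenSet K → PolyIo K D →
  Infinite Q → ∃ ψ : Q → ℝ, Neg ψ ∧ ∀ g, av K (av K ψ) g = ψ g + 1

/-- Lipschitz functions -/
def Lip {Q : Type*} [Group Q] (K : Finset Q) (f : Q → ℝ) (L : ℝ) : Prop :=
  ∀ x, ∀ s ∈ K, |f (x * s) - f x| ≤ L

theorem av_add {Q : Type*} [Group Q] (K : Finset Q) (f g : Q → ℝ) :
    av K (f + g) = av K f + av K g := by
  funext x
  simp [av, Finset.sum_add_distrib, mul_add]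

theorem av_smul {Q : Type*} [Group Q] (K : Finset Q) (c : ℝ) (f : Q → ℝ) :
    av K (c • f) = c • av K f := by
  funext x
  simp only [av, Pi.smul_apply, smul_eq_mul, ← Finset.mul_sum]
  ring

/-- the space of harmonic Lipschitz functions with `f(1) = 0` -/
noncomputable def VV {Q : Type*} [Group Q] (K : Finset Q) : Submodule ℝ (Q → ℝ) where
  carrier := {f | f 1 = 0 ∧ av K (av K f) = f ∧ ∃ L, Lip K f L}
  add_mem' := by
    rintro f g ⟨hf, hf', L, hL⟩ ⟨hg, hg', M, hM⟩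
    refine ⟨by simp [hf, hg], by rw [av_add, av_add, hf', hg'], L + M, fun x s hs => ?_⟩
    have e : (f + g) (x * s) - (f + g) x = (f (x * s) - f x) + (g (x * s) - g x) := by
      simp only [Pi.add_apply]; ring
    rw [e]
    exact (abs_add_le _ _).trans (add_le_add (hL x s hs) (hM x s hs))
  zero_mem' := by
    refine ⟨rfl, ?_, 0, fun x s _ => by simp⟩
    have : av K (0 : Q → ℝ) = 0 := by funext x; simp [av]
    rw [this, this]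
  smul_mem' := by
    rintro c f ⟨hf, hf', L, hL⟩
    refine ⟨by simp [hf], by rw [av_smul, av_smul, hf'], |c| * L, fun x s hs => ?_⟩
    have e : (c • f) (x * s) - (c • f) x = c * (f (x * s) - f x) := by
      simp only [Pi.smul_apply, smul_eq_mul]; ring
    rw [e, abs_mul]
    exact mul_le_mul_of_nonneg_left (hL x s hs) (abs_nonneg c)

/-- Row HAR (from PSI).  `ψ` from PSI; the average of `ψ(s t)` over `s, t ∈ K` is `ψ(1) + 1 = 1`, so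
`ψ(h) > 0` for some `h`.  `f(g) = (ψ(g) + ψ(h) - ψ(h⁻¹ g))/2`: `P P f = f` since
`P P (ψ(h⁻¹ ·))(g) = ψ(h⁻¹ g) + 1`; `f(1) = 0`, `f(h) = ψ(h) ≠ 0`; Lipschitz by `Neg.four`:
`|f(x s) - f(x)| ≤ √ψ(s) √ψ(h)`, `K` is finite. -/
def HarStmt.{u} : Prop := ∀ (Q : Type u) [Group Q] (K : Finset Q) (D : ℕ), GenSet K → PolyIo K D →
  Infinite Q → ∃ f : VV K, f ≠ 0

/-! ### Part 2: entropy -/

/-- Row CHN (entropy of an average, no group).  The right side is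
`2 |J|⁻¹ ∑_j ∑_x q_j(x) log(q_j(x)/m(x))` (`∑_j |J|⁻¹ q_j(x) = m(x)`; where `m(x) = 0` all `q_j(x) = 0`)
and `∑_x q_j(x) = 1 = ∑_x m(x)`, so it is enough that for `q ≥ 0`, `m > 0`
`q log(q/m) - q + m ≥ (q-m)²/(2(q+m))`.  With `t = q/m`: `log √t ≥ 1 - 1/√t` gives
`t log t - t + 1 ≥ (√t - 1)²`, and `(√t - 1)² = (t-1)²/(√t+1)² ≥ (t-1)²/(2(t+1))`. -/
def ChnStmt.{u} : Prop := ∀ (Q J : Type u) [Fintype J] [Nonempty J] (T : Finset Q)
  (q : J → Q → ℝ) (m : Q → ℝ), (∀ j x, 0 ≤ q j x) → (∀ j, ∑ x ∈ T, q j x = 1) →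
  (∀ x, m x = (Fintype.card J : ℝ)⁻¹ * ∑ j, q j x) →
  (Fintype.card J : ℝ)⁻¹ * ∑ j, ∑ x ∈ T, (q j x - m x) ^ 2 / (q j x + m x) ≤
    2 * (∑ x ∈ T, Real.negMulLog (m x) -
      (Fintype.card J : ℝ)⁻¹ * ∑ j, ∑ x ∈ T, Real.negMulLog (q j x))

/-- Row CHI (from WK, CHN).  `J = K × K`, `T = K^(2n+2)`, `q_(s,t)(x) = w_(2n)((s t)⁻¹ x)`,
`m = w_(2n+2)` (`w_(2+2n)(x) = ∑_(y ∈ K^2) w_2(y) w_(2n)(y⁻¹ x)` and `w_2` is the image of the uniform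
measure of `K × K` under `(s, t) ↦ s t`, `K = K⁻¹`; or the operator `L` of WK).
`∑_(x∈T) negMulLog(q_(s,t)(x)) = en K n` (translation).  So CHN gives `0 ≤ en(n+1) - en(n)` and
`∑_x (q-m)²/(q+m) ≤ 2 |K|² (en(n+1) - en(n))` for each `q = q_(s,t)`.  The difference on the left is
`∑_x (q(x) - m(x)) F(x)` (WK), by Cauchy-Schwarz its square is at most
`∑ (q-m)²/(q+m) * ∑ (q+m) F²`, and `q ≤ |K|² m`, `∑ m F² = (P^(2n+2) F²)(1)`. -/
def ChiStmt.{u} : Prop := ∀ (Q : Type u) [Group Q] (K : Finset Q), GenSet K → ∀ n : ℕ,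
  en K n ≤ en K (n + 1) ∧ ∀ (F : Q → ℝ), ∀ s ∈ K, ∀ t ∈ K,
  ((av K)^[2 * n] F (s * t) - (av K)^[2 * (n + 1)] F 1) ^ 2 ≤
    4 * (K.card : ℝ) ^ 4 * (en K (n + 1) - en K n) *
      (av K)^[2 * (n + 1)] (fun x => F x ^ 2) 1

/-- Row GEN (from WK, CHI).  `en K 0 = 0`, `en K n ≤ log (gr K (2n))` (Jensen, `negMulLog` is
concave), `gr K (2n) ≤ gr K m ≤ C m^D ≤ C (2n+1)^D` for `n = m/2` and infinitely many `m` (`1 ∈ K`).
If `en(n+1) - en(n) > (D+1)/(n+1)` for all `n ≥ n0` then (CHI: increments `≥ 0`)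
`en(n) ≥ (D+1) ∑_(n0 ≤ k < n) 1/(k+1) ≥ (D+1) log((n+1)/(n0+1))`, a contradiction. -/
def GenStmt.{u} : Prop := ∀ (Q : Type u) [Group Q] (K : Finset Q) (D : ℕ), GenSet K → PolyIo K D →
  ∃ᶠ n : ℕ in atTop, en K (n + 1) - en K n ≤ (D + 1) / (n + 1)

/-- Row MOM (from WK for positivity, or directly: `P` is monotone, linear, `P 1 = 1`).  Let
`δ = f(x s t) - f(x)`, `|δ| ≤ 2 L`, average `0` over `s, t ∈ K`.  `P P f² - f²` = average of `δ²`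
`≤ 4 L²`, so `E_n f² ≤ 4 L² n`.  `P P f⁴ - f⁴` = average of `6 f² δ² + 4 f δ³ + δ⁴`
`≤ 8 f² δ² + 3 δ⁴ ≤ 32 L² f² + 48 L⁴`; so `E_(n+1) f⁴ ≤ E_n f⁴ + 128 L⁴ n + 48 L⁴`. -/
def MomStmt.{u} : Prop := ∀ (Q : Type u) [Group Q] (K : Finset Q), GenSet K → ∀ f ∈ VV K,
  ∀ L : ℝ, Lip K f L → ∀ n : ℕ, (av K)^[2 * n] (fun x => f x ^ 2) 1 ≤ 4 * L ^ 2 * n ∧
  (av K)^[2 * n] (fun x => f x ^ 4) 1 ≤ 112 * L ^ 4 * (n : ℝ) ^ 2

/-! ### Part 3: the invariant form -/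

/-- `(tr g f)(x) = f(g x) - f(g)`, a right action of `Q` on `VV K` -/
def tr {Q : Type*} [Group Q] (g : Q) (f : Q → ℝ) : Q → ℝ := fun x => f (g * x) - f g

theorem av_tr {Q : Type*} [Group Q] {K : Finset Q} (hK : GenSet K) (g : Q) (f : Q → ℝ) :
    av K (tr g f) = fun x => av K f (g * x) - f g := by
  have hc : (K.card : ℝ) ≠ 0 := by
    exact_mod_cast (Finset.card_pos.2 ⟨1, hK.one⟩).ne'
  funext x
  simp only [av, tr, Finset.sum_sub_distrib, Finset.sum_const, nsmul_eq_mul, mul_sub, mul_assoc]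
  rw [inv_mul_cancel_left₀ hc]

theorem tr_mem {Q : Type*} [Group Q] {K : Finset Q} (hK : GenSet K) (g : Q) {f : Q → ℝ}
    (hf : f ∈ VV K) : tr g f ∈ VV K := by
  obtain ⟨h1, h2, L, hL⟩ := hf
  refine ⟨by simp [tr], ?_, L, fun x s hs => ?_⟩
  · have hc : (K.card : ℝ) ≠ 0 := by
      exact_mod_cast (Finset.card_pos.2 ⟨1, hK.one⟩).ne'
    rw [av_tr hK]
    funext x
    have e := congrFun h2 (g * x)
    simp only [av] at e ⊢
    simp only [mul_sub, Finset.sum_sub_distrib, Finset.sum_const, nsmul_eq_mul, tr, ← mul_assoc]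
      at e ⊢
    rw [e, inv_mul_cancel₀ hc, one_mul]
  · have e : tr g f (x * s) - tr g f x = f (g * x * s) - f (g * x) := by
      simp only [tr, mul_assoc]; ring
    rw [e]
    exact hL _ s hs

/-- the form `B(f, h) = lim (1/n) E_n(f h)` on `VV K` and its properties -/
structure Frm {Q : Type*} [Group Q] (K : Finset Q) (hK : GenSet K) (U : Filter ℕ)
    (B : VV K → VV K → ℝ) (c : ℝ) : Prop where
  ne : U.NeBot
  le : U ≤ atTop
  lim : ∀ f h : VV K,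
    Tendsto (fun n : ℕ => (av K)^[2 * n] (fun x => f.1 x * h.1 x) 1 / n) U (𝓝 (B f h))
  pos : ∀ f : VV K, ∀ s ∈ K, ∀ t ∈ K, f.1 (s * t) ^ 2 ≤ c * B f f
  inv : ∀ (g : Q) (f : VV K), B ⟨tr g f.1, tr_mem hK g f.2⟩ ⟨tr g f.1, tr_mem hK g f.2⟩ = B f f

/-- Row BFO (from WK, CHI, GEN, MOM).  Good `n`: `en(n+1) - en(n) ≤ (D+1)/(n+1)`, `N = n+1`; `U` = an
ultrafilter `≤ atTop` containing the set of `N = n+1`, `n` good.  `|E_N(f h)|/N` is bounded (MOM and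
`|f h| ≤ f² + h²`), so the limits `B(f, h)` exist.  `pos`: CHI with `F = f`:
`(P^(2n) f)(s t) = f(s t)`, `(P^(2n+2) f)(1) = f(1) = 0`, so
`f(s t)² ≤ 4 |K|⁴ (D+1)/N * E_N f²`, `c = 4 |K|⁴ (D+1)`.
`inv`: CHI with `F = f²` and MOM: `|(P^(2n) f²)(s t) - E_N f²|² ≤ 4 |K|⁴ (D+1)/N * 112 L⁴ N²`, divided
by `N²` it tends to `0`; so `(P^(2n) f²)(s t)/N → B(f, f)` along `U` for all `s, t ∈ K`, and for
`s = t = 1`: `E_n f²/N → B(f, f)` (`n = N - 1`), for every `f ∈ VV K`.  Now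
`(P^(2n) f²)(s t) = P^(2n) ((f(s t) + tr (s t) f)²) (1) = f(s t)² + E_n (tr (s t) f)²`
(`E_n (tr (s t) f) = 0`), so `B(tr g f, tr g f) = B(f, f)` for `g = s t`, in particular for `g ∈ K`;
`tr (g h) f = tr h (tr g f)` and `K` generates. -/
def BfoStmt.{u} : Prop := ∀ (Q : Type u) [Group Q] (K : Finset Q) (D : ℕ) (hK : GenSet K),
  PolyIo K D → ∃ (U : Filter ℕ) (B : VV K → VV K → ℝ) (c : ℝ), Frm K hK U B c

/-- Row BIL (from WK: `P^(2n)` is linear and positive).  `B` is symmetric, bilinear, `B(f, f) ≥ 0` by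
uniqueness of limits.  Definite: if `B(f, f) = 0` then `B(tr g f, tr g f) = 0` (`inv`), so by `pos`
`f(g s t) - f(g) = 0` for all `g` and `s, t ∈ K`, so `f` is constant (`K` generates), `f(1) = 0`. -/
def BilStmt.{u} : Prop := ∀ (Q : Type u) [Group Q] (K : Finset Q) (hK : GenSet K) (U : Filter ℕ)
  (B : VV K → VV K → ℝ) (c : ℝ), Frm K hK U B c →
  (∀ f h, B f h = B h f) ∧ (∀ f h k, B (f + h) k = B f k + B h k) ∧
  (∀ (r : ℝ) (f h : VV K), B (r • f) h = r * B f h) ∧ (∀ f, 0 ≤ B f f) ∧ ∀ f, B f f = 0 → f = 0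

/-- Row DIM (from WK, BIL).  Let `f_1, .., f_k ∈ VV K` be linearly independent; by Gram-Schmidt
(`InnerProductSpace.Core` on their span from BIL, `stdOrthonormalBasis`) we may take them
`B`-orthonormal.  For every `x` the `tr x f_i` are again orthonormal (polarise `inv`).  For an
orthonormal family `e_i`, `s, t ∈ K` and real `c_i`: `pos` for `∑ c_i e_i` with `c_i = e_i(s t)` gives
`(∑ e_i(s t)²)² ≤ c ∑ e_i(s t)²`, `∑ e_i(s t)² ≤ c`.  So `∑_i (f_i(x s t) - f_i(x))² ≤ c` for all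
`x`, and `P P (∑ f_i²) - ∑ f_i²` = average of `∑_i (f_i(x s t) - f_i(x))²` `≤ c` (`P P f_i = f_i`), so
`E_n ∑ f_i² ≤ c n` and in the limit `k = ∑ B(f_i, f_i) ≤ c`.  Then `rank_le`. -/
def DimStmt.{u} : Prop := ∀ (Q : Type u) [Group Q] (K : Finset Q) (hK : GenSet K) (U : Filter ℕ)
  (B : VV K → VV K → ℝ) (c : ℝ), Frm K hK U B c → Module.Finite ℝ (VV K)

/-- Row REP (from WK, BIL).  `InnerProductSpace.Core` on `VV K` from BIL, orthonormal basis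
`e_1, .., e_n` (`stdOrthonormalBasis`), `n ≥ 1`.  `b(g)_i = e_i(g)`,
`π(g)_(ij) = B(tr g e_i, e_j)` (orthogonal matrix by `inv`, polarised): as
`tr g e_i = ∑_j B(tr g e_i, e_j) e_j`, `e_i(g h) = e_i(g) + (tr g e_i)(h) = b(g)_i + (π(g) b(h))_i`;
`tr (g h) f = tr h (tr g f)` gives `π(g h) = π(g) π(h)`.
Unbounded: if `|e_1| ≤ C` then `E_n e_1² / n ≤ C²/n → 0` but the limit is `B(e_1, e_1) = 1`. -/
def RepStmt.{u} : Prop := ∀ (Q : Type u) [Group Q] (K : Finset Q) (hK : GenSet K) (U : Filter ℕ)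
  (B : VV K → VV K → ℝ) (c : ℝ), Frm K hK U B c → Module.Finite ℝ (VV K) →
  (∃ f : VV K, f ≠ 0) →
  ∃ (n : ℕ) (π : Q →* (EuclideanSpace ℝ (Fin n) ≃ₗᵢ[ℝ] EuclideanSpace ℝ (Fin n)))
    (b : Q → EuclideanSpace ℝ (Fin n)),
    (∀ g h, b (g * h) = b g + π g (b h)) ∧ ∀ C : ℝ, ∃ g, C < ‖b g‖

/-- Row HRM: `HrmStmt` from HAR, BFO, DIM, REP (glue). -/
def HrmGlue.{u} : Prop := HarStmt.{u} → BfoStmt.{u} → DimStmt.{u} → RepStmt.{u} → HrmStmt.{u}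

end Pool.Agent.NGM
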